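import Pool.Agent.helper84.QI.Spec

/-!
# Project QI, row TRD: assembly of the second theorem
-/

set_option autoImplicit false

namespace Pool.Agent.QI

theorem TRD (hNIN : NIN_stmt) (hCEN : CEN_stmt) (hEFN : EFN_stmt) (hQUO : QUO_stmt) (hJIN : JIN_stmt) (hQIV : QIV_stmt) (hQFB : QFB_stmt) (hMNM : MNM_stmt) (hFCH : FCH_stmt) (hOLN : OLN_stmt) (hPRO : PRO_stmt) : TRD_stmt := by
  intro G _ _ a b hgen hfin
  have hCE : CE a b := ⟨hgen, inferInstance, hfin⟩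
  obtain ⟨hca, hcb, _, _⟩ := hCEN G a b hCE
  refine ⟨hca, hcb, ?_⟩
  obtain ⟨E, hEn, hEf, hEmax⟩ := hEFN G a b hCE
  have hEn' := hEn
  have hCE' : CE (QuotientGroup.mk a : G ⧸ E) (QuotientGroup.mk b : G ⧸ E) := hQUO G a b hCE E hEf
  have hJI := hJIN G a b hCE E hEmax
  refine ⟨E, hEn, hEf, hCE'.fin, hJI, ?_⟩
  intro hprm
  obtain ⟨m, hm⟩ := hQFB G a b hCE hprm
  obtain ⟨M, hMn, hMfi, hMb, hMle, hMK⟩ := hMNM G E m hCE'.inf hm hJI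
  have hFG : Group.FG (G ⧸ E) := by
    rw [Group.fg_iff]
    exact ⟨_, hCE'.gen, Set.toFinite _⟩
  obtain ⟨S, hS, hSM⟩ := hFCH (G ⧸ E) M hMn hMfi hMb hMle hMK
    (fun hab => hQIV (G ⧸ E) _ _ hCE' M hMfi hab)
  obtain ⟨hca', hcb', _, _⟩ := hCEN (G ⧸ E) _ _ hCE'
  obtain ⟨hP1, hP2⟩ := hPRO (G ⧸ E) S hS
  refine ⟨S, hS, ?_, ?_, ?_, ?_⟩
  · intro L hL x hx
    rcases hx with rfl | rfl
    · exact hOLN (G ⧸ E) S hS.fin hS.inf hS.com hS.ind hS.cnj _ hca' L hL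
    · exact hOLN (G ⧸ E) S hS.fin hS.inf hS.com hS.ind hS.cnj _ hcb' L hL
  · intro p hp hap L hL
    exact hP1 _ p hp (by rw [← QuotientGroup.mk_pow, hap]; rfl) hca' L hL
  · intro p hp hbp L hL
    exact hP1 _ p hp (by rw [← QuotientGroup.mk_pow, hbp]; rfl) hcb' L hL
  · intro p q hp hq hap hbq
    exact hP2 _ _ hCE'.gen p q hp hq (by rw [← QuotientGroup.mk_pow, hap]; rfl)
      (by rw [← QuotientGroup.mk_pow, hbq]; rfl) hca' hcb'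

end Pool.Agent.QI
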